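import Mathlib
import Pool.Agent.SGD.Stmts

/-!
# Squad SGD, row SIZ (helper27): cuts of all sizes.
-/

set_option autoImplicit false

noncomputable section

namespace Pool.Agent.SGD.H27

open Pool.Agent.SGE Pool.Agent.SGP Pool.Agent.SGY Pool.Agent.SGD

theorem states (exg : ExgStmt) (stp : StpStmt) (ini : IniStmt)
    {V : Type} [Fintype V] {a b c : V} {E : V → V → Prop}
    {F : V → V → V → Prop} (h : NT a b [a, c, b] E F) (hs : NoSep a E) (m : ℕ)
    (hm : m ≤ (Inn a b c E).ncard) :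
    ∃ (K : Set V) (C₁ C₂ : List V), Stt a b c E F K C₁ C₂ ∧ K.ncard = m := by
  induction m with
  | zero =>
    obtain ⟨C₁, hC⟩ := ini h
    exact ⟨∅, C₁, [c, a], hC, Set.ncard_empty V⟩
  | succ m ih =>
    obtain ⟨K, C₁, C₂, hS, hK⟩ := ih (by omega)
    have hne : (Inn a b c E \ K).Nonempty := by
      rw [Set.nonempty_iff_ne_empty]
      intro he
      have hsub : Inn a b c E ⊆ K := Set.sdiff_eq_empty.1 he
      have := Set.ncard_le_ncard hsub (Set.toFinite K)
      omega
    obtain ⟨P, p, v, q, Q, h1, h2, h3⟩ := exg hS hs hne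
    obtain ⟨hv, C₁', C₂', hS'⟩ := stp hS P p v q Q h1 h2 h3
    exact ⟨insert v K, C₁', C₂', hS', by
      rw [Set.ncard_insert_of_notMem hv (Set.toFinite K), hK]⟩

/-- Row SIZ. -/
theorem siz (exg : ExgStmt) (stp : StpStmt) (ini : IniStmt) (ctf : CtfStmt) : SizStmt := by
  intro V _ a b c E F h hs q hq hq'
  obtain ⟨K, C₁, C₂, hS, hK⟩ := states exg stp ini h hs q hq'.le
  have hKn : K.Nonempty := by
    rw [Set.nonempty_iff_ne_empty]
    rintro rfl
    rw [Set.ncard_empty] at hK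
    omega
  have hne : (Inn a b c E \ K).Nonempty := by
    rw [Set.nonempty_iff_ne_empty]
    intro he
    have hsub : Inn a b c E ⊆ K := Set.sdiff_eq_empty.1 he
    have := Set.ncard_le_ncard hsub (Set.toFinite K)
    omega
  obtain ⟨E₁, F₁, E₂, F₂, hC⟩ := ctf hS hKn hne
  exact ⟨K, E₁, F₁, E₂, F₂, hC, hK⟩

end Pool.Agent.SGD.H27
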